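import Mathlib

open scoped ENNReal ComplexConjugate Topology
open Filter

namespace Pool.Agent.Results.MP_dad682_an.NormingEnvelope

universe u v w

section Defs

/-- `B(H)`. -/
abbrev Op (H : Type u) [NormedAddCommGroup H] [InnerProductSpace ℂ H] := H →L[ℂ] H

/-- `m × n` matrices of bounded operators on `H`. -/
abbrev Mat (m n : ℕ) (H : Type u) [NormedAddCommGroup H] [InnerProductSpace ℂ H] :=
  Matrix (Fin m) (Fin n) (Op H)

/-- (Concrete) operator spaces: linear subspaces of `B(H)`. -/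
abbrev OpSpace (H : Type u) [NormedAddCommGroup H] [InnerProductSpace ℂ H] :=
  Submodule ℂ (Op H)

variable {H : Type u} [NormedAddCommGroup H] [InnerProductSpace ℂ H]
variable {K : Type v} [NormedAddCommGroup K] [InnerProductSpace ℂ K]

/-- Linear maps from an operator space `E ⊆ B(K)` to `B(H)`. -/
abbrev Lin (E : OpSpace K) (H : Type u) [NormedAddCommGroup H] [InnerProductSpace ℂ H] :=
  E →ₗ[ℂ] Op H

/-- An `m × n` matrix `X` of bounded operators on `H`, regarded as a bounded operator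
`H^n → H^m` between Hilbert space direct sums: `(X ξ)_i = ∑_j X_ij ξ_j`. -/
noncomputable def matOp {m n : ℕ} (X : Mat m n H) :
    PiLp 2 (fun _ : Fin n => H) →L[ℂ] PiLp 2 (fun _ : Fin m => H) :=
  ((PiLp.continuousLinearEquiv 2 ℂ (fun _ : Fin m => H)).symm :
      (∀ _ : Fin m, H) →L[ℂ] PiLp 2 (fun _ : Fin m => H)) ∘L
    ContinuousLinearMap.pi (fun i => ∑ j, (X i j) ∘L (PiLp.proj 2 (fun _ : Fin n => H) j))

/-- The norm of a matrix (row, column) of operators: the operator norm of `matOp X`. -/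
noncomputable def mnorm {m n : ℕ} (X : Mat m n H) : ℝ := ‖matOp X‖

/-- The product `R X C` (a `1 × 1` matrix). -/
noncomputable def rxc {k : ℕ} (R : Mat 1 k H) (X : Mat k k H) (C : Mat k 1 H) : Mat 1 1 H :=
  R * X * C

/-- The set `S` of operators norms the set `B` of operators (see the problem file):
for every `k ≥ 1` and every `X ∈ M_k(B)` one has
`‖X‖ = sup {‖RXC‖ : R ∈ Ball(Row_k(S)), C ∈ Ball(Col_k(S))}`. -/
def Norms (S B : Set (Op H)) : Prop :=
  ∀ k : ℕ, 1 ≤ k → ∀ X : Mat k k H, (∀ i j, X i j ∈ B) →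
    IsLUB {r : ℝ | ∃ (R : Mat 1 k H) (C : Mat k 1 H), (∀ i j, R i j ∈ S) ∧ (∀ i j, C i j ∈ S) ∧
      mnorm R ≤ 1 ∧ mnorm C ≤ 1 ∧ r = mnorm (rxc R X C)} (mnorm X)

/-- The value `φ(x)`. -/
def ap {E : OpSpace K} (φ : Lin E H) (x : E) : Op H := φ x

/-- The norm of the matrix `(φ(X_ij))`, for a matrix `X` over the operator space `E`. -/
noncomputable def mapNorm {E : OpSpace K} (φ : Lin E H) {k : ℕ}
    (X : Matrix (Fin k) (Fin k) E) : ℝ :=
  mnorm (fun i j => ap φ (X i j) : Mat k k H)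

/-- `φ` is a complete contraction. -/
def IsComplContr {E : OpSpace K} (φ : Lin E H) : Prop :=
  ∀ (k : ℕ) (X : Matrix (Fin k) (Fin k) E), mapNorm φ X ≤ mapNorm E.subtype X

/-- `φ` is a complete isometry. -/
def IsComplIsom {E : OpSpace K} (φ : Lin E H) : Prop :=
  ∀ (k : ℕ) (X : Matrix (Fin k) (Fin k) E), mapNorm φ X = mapNorm E.subtype X

/-- `φ` takes values in `M`. -/
def MapsInto {E : OpSpace K} (φ : Lin E H) (M : OpSpace H) : Prop := ∀ x, ap φ x ∈ M

/-- `ψ : F → B(H)` extends `φ : E → B(H)`. -/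
def Extends {E F : OpSpace K} (φ : Lin E H) (ψ : Lin F H) : Prop :=
  ∀ (x : E) (y : F), (y : Op K) = x → ap ψ y = ap φ x

/-- A (concrete) operator space `M ⊆ B(H)` is injective: every complete contraction into `M`
defined on a subspace `E` of an operator space `F ⊆ B(K)` extends to a complete contraction
`F → M`. -/
def IsInjective (M : OpSpace H) : Prop :=
  ∀ (K : Type w) [NormedAddCommGroup K] [InnerProductSpace ℂ K] [CompleteSpace K]
    (E F : OpSpace K) (φ : Lin E H), E ≤ F → MapsInto φ M → IsComplContr φ →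
      ∃ ψ : Lin F H, MapsInto ψ M ∧ IsComplContr ψ ∧ Extends φ ψ

end Defs

section Defs2

variable {H : Type u} [NormedAddCommGroup H] [InnerProductSpace ℂ H] [CompleteSpace H]
variable {K : Type v} [NormedAddCommGroup K] [InnerProductSpace ℂ K] [CompleteSpace K]

/-- The product in `B(H)`. -/
def omul (x y : Op H) : Op H := x * y

/-- The adjoint in `B(H)`. -/
noncomputable def adj (x : Op H) : Op H := ContinuousLinearMap.adjoint x

/-- `A ⊆ B(H)` is a (unital, norm closed) C*-algebra of operators. -/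
def IsCStarAlg (A : OpSpace H) : Prop :=
  IsClosed (A : Set (Op H)) ∧ 1 ∈ A ∧ (∀ x y : A, omul x.1 y.1 ∈ A) ∧ ∀ x : A, adj x.1 ∈ A

/-- The linear map `ι : A → B(K)` is multiplicative and preserves adjoints. -/
def IsStarHom {A : OpSpace H} (ι : Lin A K) : Prop :=
  (∀ x y z : A, z.1 = omul x.1 y.1 → ap ι z = omul (ap ι x) (ap ι y)) ∧
    ∀ x y : A, y.1 = adj x.1 → ap ι y = adj (ap ι x)

/-- Rigidity of `ι : A → I`: the identity is the only complete contraction `I → I` which is the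
identity on `ι(A)`. -/
def IsRigid {A : OpSpace H} (ι : Lin A K) (I : OpSpace K) : Prop :=
  ∀ φ : Lin I K, MapsInto φ I → IsComplContr φ →
    (∀ (a : A) (x : I), ap ι a = x.1 → ap φ x = x.1) → ∀ x : I, ap φ x = x.1

/-- `(I, ι)` is an injective envelope of the C*-algebra `A ⊆ B(H)`: `I ⊆ B(K)` is a C*-algebra,
`ι : A → I` is an injective `*`-homomorphism, `I` is injective, and `ι : A → I` is rigid. -/
def IsInjectiveEnvelope {A : OpSpace H} (ι : Lin A K) (I : OpSpace K) : Prop :=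
  IsCStarAlg I ∧ IsStarHom ι ∧ Function.Injective (ap ι) ∧ MapsInto ι I ∧
    IsInjective.{v, w} I ∧ IsRigid ι I

/-- `j : I → B(H)` is a completely isometric copy of `ι : A → I` in `B(H)` with `j(ι(a)) = a` for
all `a ∈ A`, whose range norms `B`. -/
def IsNormingCopy {A : OpSpace H} (ι : Lin A K) {I : OpSpace K} (j : Lin I H) (B : OpSpace H) :
    Prop :=
  IsComplIsom j ∧ (∀ (a : A) (x : I), ap ι a = x.1 → ap j x = a.1) ∧
    Norms (Set.range (ap j)) (B : Set (Op H))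

/-- Some completely isometric copy of an injective envelope of `A` norms `B`. -/
def CopyNorms (A B : OpSpace H) : Prop :=
  ∃ (K : Type v) (_ : NormedAddCommGroup K) (_ : InnerProductSpace ℂ K) (_ : CompleteSpace K)
    (I : OpSpace K) (ι : Lin A K) (j : Lin I H),
    IsInjectiveEnvelope.{u, v, w} ι I ∧ IsNormingCopy ι j B

end Defs2

section General

variable {H : Type u} [NormedAddCommGroup H] [InnerProductSpace ℂ H]

theorem matOp_apply {m n : ℕ} (X : Matrix (Fin m) (Fin n) (H →L[ℂ] H))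
    (ξ : PiLp 2 (fun _ : Fin n => H)) (i : Fin m) :
    (matOp X ξ) i = ∑ j, X i j (ξ j) := by
  simp [matOp, ContinuousLinearMap.sum_apply]

theorem matOp_mul {m n l : ℕ} (X : Matrix (Fin m) (Fin n) (H →L[ℂ] H))
    (Y : Matrix (Fin n) (Fin l) (H →L[ℂ] H)) :
    matOp (X * Y) = (matOp X) ∘L (matOp Y) := by
  ext ξ i
  simp only [matOp_apply, ContinuousLinearMap.comp_apply, Matrix.mul_apply,
    ContinuousLinearMap.sum_apply, map_sum, ContinuousLinearMap.mul_apply]
  exact Finset.sum_comm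

theorem norm_entry_le {m n : ℕ} (X : Matrix (Fin m) (Fin n) (H →L[ℂ] H)) (i : Fin m) (j : Fin n) :
    ‖X i j‖ ≤ ‖matOp X‖ := by
  refine ContinuousLinearMap.opNorm_le_bound _ (ContinuousLinearMap.opNorm_nonneg _) fun h => ?_
  have h1 := (matOp X).le_opNorm (PiLp.single 2 j h)
  rw [PiLp.norm_single] at h1
  refine le_trans ?_ h1
  have h2 : (matOp X (PiLp.single 2 j h)) i = X i j h := by
    rw [matOp_apply]
    rw [Finset.sum_eq_single j]
    · simp
    · intro b _ hb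
      simp [hb]
    · simp
  rw [← h2]
  exact PiLp.norm_apply_le _ i

end General

section Concrete

/-- index set of the concrete Hilbert space -/
abbrev Γ := Option ℕ × Fin 2

/-- the concrete Hilbert space `ℓ²(Γ)` -/
noncomputable abbrev HH := lp (fun _ : Γ => ℂ) 2

/-- diagonal operators -/
def IsDiag (T : HH →L[ℂ] HH) (f : Γ → ℂ) : Prop := ∀ (ξ : HH) (γ : Γ), (T ξ) γ = f γ * ξ γ

/-- the diagonal operator with bounded symbol `f` -/
noncomputable def diag (f : Γ → ℂ) (K : ℝ) (hK : 0 ≤ K) (hf : ∀ γ, ‖f γ‖ ≤ K) : HH →L[ℂ] HH :=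
  lp.mapCLM 2 (fun γ => f γ • ContinuousLinearMap.id ℂ ℂ) hK (by
    intro γ
    rw [norm_smul]
    refine le_trans (mul_le_mul_of_nonneg_left ContinuousLinearMap.norm_id_le (norm_nonneg _)) ?_
    simpa using hf γ)

theorem isDiag_diag (f : Γ → ℂ) (K : ℝ) (hK : 0 ≤ K) (hf : ∀ γ, ‖f γ‖ ≤ K) :
    IsDiag (diag f K hK hf) f := by
  intro ξ γ
  simp [diag]

theorem norm_diag_le (f : Γ → ℂ) (K : ℝ) (hK : 0 ≤ K) (hf : ∀ γ, ‖f γ‖ ≤ K) :
    ‖diag f K hK hf‖ ≤ K := lp.norm_mapCLM_le _ _ _ _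

/-- the basis vector -/
noncomputable def e (γ : Γ) : HH := lp.single 2 γ (1 : ℂ)

theorem e_self (γ : Γ) : (e γ) γ = 1 := by simp [e]

theorem e_ne {γ δ : Γ} (h : δ ≠ γ) : (e γ) δ = 0 := by
  simp only [e]
  exact lp.single_apply_ne 2 γ 1 h

theorem norm_e (γ : Γ) : ‖e γ‖ = 1 := by
  simp only [e]
  rw [lp.norm_single (by norm_num)]
  simp

theorem norm_coord_le (ξ : HH) (γ : Γ) : ‖ξ γ‖ ≤ ‖ξ‖ :=
  lp.norm_apply_le_norm (by norm_num) ξ γ

/-- the diagonal coefficient -/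
noncomputable def co (T : HH →L[ℂ] HH) (γ : Γ) : ℂ := (T (e γ)) γ

theorem norm_co_le (T : HH →L[ℂ] HH) (γ : Γ) : ‖co T γ‖ ≤ ‖T‖ := by
  refine le_trans (norm_coord_le _ _) ?_
  have := T.le_opNorm (e γ)
  rwa [norm_e, mul_one] at this

theorem co_add (S T : HH →L[ℂ] HH) (γ : Γ) : co (S + T) γ = co S γ + co T γ := by
  simp [co]

theorem co_sub (S T : HH →L[ℂ] HH) (γ : Γ) : co (S - T) γ = co S γ - co T γ := by
  simp [co]

theorem co_smul (c : ℂ) (T : HH →L[ℂ] HH) (γ : Γ) : co (c • T) γ = c * co T γ := by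
  simp [co]

theorem IsDiag.co_eq {T : HH →L[ℂ] HH} {f : Γ → ℂ} (h : IsDiag T f) (γ : Γ) : co T γ = f γ := by
  rw [co, h, e_self, mul_one]

theorem IsDiag.eq {S T : HH →L[ℂ] HH} {f : Γ → ℂ} (hS : IsDiag S f) (hT : IsDiag T f) :
    S = T := by
  ext ξ γ
  rw [hS, hT]

theorem IsDiag.mul {S T : HH →L[ℂ] HH} {f g : Γ → ℂ} (hS : IsDiag S f) (hT : IsDiag T g) :
    IsDiag (S * T) (fun γ => f γ * g γ) := by
  intro ξ γ
  rw [ContinuousLinearMap.mul_apply, hS, hT, mul_assoc]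

theorem IsDiag.add {S T : HH →L[ℂ] HH} {f g : Γ → ℂ} (hS : IsDiag S f) (hT : IsDiag T g) :
    IsDiag (S + T) (fun γ => f γ + g γ) := by
  intro ξ γ
  have : ((S + T) ξ) γ = (S ξ) γ + (T ξ) γ := rfl
  rw [this, hS, hT, add_mul]

theorem isDiag_algebraMap (c : ℂ) : IsDiag (algebraMap ℂ (HH →L[ℂ] HH) c) (fun _ => c) := by
  intro ξ γ
  rw [Algebra.algebraMap_eq_smul_one]
  simp

theorem inner_e_left (γ : Γ) (ξ : HH) : inner ℂ (e γ) ξ = ξ γ := by
  simp only [e]
  rw [lp.inner_single_left]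
  simp

theorem IsDiag.star {T : HH →L[ℂ] HH} {f : Γ → ℂ} (hT : IsDiag T f) :
    IsDiag (star T) (fun γ => conj (f γ)) := by
  intro ξ γ
  rw [← inner_e_left, ContinuousLinearMap.star_eq_adjoint, ContinuousLinearMap.adjoint_inner_right]
  have : T (e γ) = f γ • e γ := by
    ext δ
    rw [hT]
    by_cases h : δ = γ
    · subst h
      simp
    · have h1 : (f γ • e γ : HH) δ = f γ * (e γ) δ := rfl
      rw [h1, e_ne h]; simp
  rw [this, inner_smul_left, inner_e_left]

/-- The algebra of diagonal operators whose entries at `(∞, a)` are limits of the other ones along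
given filters. -/
def limAlg (F : Fin 2 → Filter (ℕ × Fin 2)) : StarSubalgebra ℂ (HH →L[ℂ] HH) where
  carrier := {T | ∃ f : Γ → ℂ, IsDiag T f ∧
    ∀ a, Tendsto (fun p : ℕ × Fin 2 => f (some p.1, p.2)) (F a) (𝓝 (f (none, a)))}
  mul_mem' := by
    rintro S T ⟨f, hf, hf'⟩ ⟨g, hg, hg'⟩
    exact ⟨_, hf.mul hg, fun a => (hf' a).mul (hg' a)⟩
  add_mem' := by
    rintro S T ⟨f, hf, hf'⟩ ⟨g, hg, hg'⟩
    exact ⟨_, hf.add hg, fun a => (hf' a).add (hg' a)⟩
  algebraMap_mem' := by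
    intro c
    exact ⟨_, isDiag_algebraMap c, fun a => tendsto_const_nhds⟩
  star_mem' := by
    rintro T ⟨f, hf, hf'⟩
    exact ⟨_, hf.star, fun a => (Complex.continuous_conj.tendsto _).comp (hf' a)⟩

theorem mem_limAlg {F : Fin 2 → Filter (ℕ × Fin 2)} {T : HH →L[ℂ] HH} :
    T ∈ limAlg F ↔ ∃ f : Γ → ℂ, IsDiag T f ∧
      ∀ a, Tendsto (fun p : ℕ × Fin 2 => f (some p.1, p.2)) (F a) (𝓝 (f (none, a))) := Iff.rfl

theorem isClosed_limAlg (F : Fin 2 → Filter (ℕ × Fin 2)) :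
    IsClosed (limAlg F : Set (HH →L[ℂ] HH)) := by
  rw [← closure_subset_iff_isClosed]
  intro T hT
  rw [Metric.mem_closure_iff] at hT
  refine ⟨co T, ?_, ?_⟩
  · intro ξ γ
    -- |(T ξ) γ - co T γ * ξ γ| ≤ ε for all ε
    by_contra hne
    have hpos : 0 < ‖(T ξ) γ - co T γ * ξ γ‖ := by
      rw [norm_pos_iff, sub_ne_zero]; exact hne
    have hden : 0 < 2 * ‖ξ‖ + 1 := by positivity
    obtain ⟨S, ⟨f, hf, -⟩, hS⟩ := hT (‖(T ξ) γ - co T γ * ξ γ‖ / (2 * ‖ξ‖ + 1)) (by positivity)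
    rw [dist_eq_norm] at hS
    have h1 : (T ξ) γ - co T γ * ξ γ = ((T - S) ξ) γ - co (T - S) γ * ξ γ := by
      have h2 : ((T - S) ξ) γ = (T ξ) γ - (S ξ) γ := rfl
      rw [h2, co_sub, hf, hf.co_eq]; ring
    have h3 : ‖(T ξ) γ - co T γ * ξ γ‖ ≤ ‖T - S‖ * (2 * ‖ξ‖) := by
      rw [h1]
      refine le_trans (norm_sub_le _ _) ?_
      rw [norm_mul]
      have h4 : ‖((T - S) ξ) γ‖ ≤ ‖T - S‖ * ‖ξ‖ :=
        le_trans (norm_coord_le _ _) ((T - S).le_opNorm ξ)
      have h5 : ‖co (T - S) γ‖ * ‖ξ γ‖ ≤ ‖T - S‖ * ‖ξ‖ :=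
        mul_le_mul (norm_co_le _ _) (norm_coord_le _ _) (norm_nonneg _) (norm_nonneg _)
      linarith
    have h6 : ‖T - S‖ * (2 * ‖ξ‖ + 1) < ‖(T ξ) γ - co T γ * ξ γ‖ := by
      rwa [lt_div_iff₀ hden] at hS
    have h7 : ‖T - S‖ * (2 * ‖ξ‖) ≤ ‖T - S‖ * (2 * ‖ξ‖ + 1) :=
      mul_le_mul_of_nonneg_left (by linarith) (norm_nonneg _)
    linarith
  · intro a
    rw [Metric.tendsto_nhds]
    intro ε hε
    obtain ⟨S, ⟨f, hf, hf'⟩, hS⟩ := hT (ε / 3) (by positivity)
    rw [dist_eq_norm] at hS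
    have h1 := (Metric.tendsto_nhds.1 (hf' a)) (ε / 3) (by positivity)
    filter_upwards [h1] with p hp
    rw [dist_eq_norm] at hp ⊢
    have h2 : ∀ γ, ‖co T γ - f γ‖ ≤ ‖T - S‖ := by
      intro γ
      rw [← hf.co_eq, ← co_sub]
      exact norm_co_le _ _
    have h3 := h2 (some p.1, p.2)
    have h4 := h2 (none, a)
    have h5 : co T (some p.1, p.2) - co T (none, a) =
        (co T (some p.1, p.2) - f (some p.1, p.2)) + (f (some p.1, p.2) - f (none, a))
          - (co T (none, a) - f (none, a)) := by ring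
    rw [h5]
    refine lt_of_le_of_lt (norm_sub_le _ _) ?_
    refine lt_of_le_of_lt (add_le_add_left (norm_add_le _ _) _) ?_
    linarith

/-- the projection onto the fibre over `o` -/
noncomputable def Q (o : Option ℕ) : HH →L[ℂ] HH :=
  diag (fun γ => if γ.1 = o then 1 else 0) 1 zero_le_one (by intro γ; split_ifs <;> simp)

theorem isDiag_Q (o : Option ℕ) : IsDiag (Q o) (fun γ => if γ.1 = o then 1 else 0) :=
  isDiag_diag _ _ _ _

theorem star_Q (o : Option ℕ) : star (Q o) = Q o := by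
  have h := (isDiag_Q o).star
  refine h.eq ?_
  convert isDiag_Q o using 2 with γ
  split_ifs <;> simp

/-- the block-diagonal operators -/
noncomputable def BB : StarSubalgebra ℂ (HH →L[ℂ] HH) :=
  StarSubalgebra.centralizer ℂ (Set.range Q)

theorem mem_BB {T : HH →L[ℂ] HH} : T ∈ BB ↔ ∀ o, Q o * T = T * Q o := by
  rw [BB, StarSubalgebra.mem_centralizer_iff]
  constructor
  · intro h o
    exact (h (Q o) ⟨o, rfl⟩).1
  · rintro h _ ⟨o, rfl⟩
    rw [star_Q]
    exact ⟨h o, h o⟩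

theorem isClosed_BB : IsClosed (BB : Set (HH →L[ℂ] HH)) := by
  have : (BB : Set (HH →L[ℂ] HH)) = ⋂ o, {T | Q o * T = T * Q o} := by
    ext T
    simp only [SetLike.mem_coe, mem_BB, Set.mem_iInter, Set.mem_setOf_eq]
  rw [this]
  refine isClosed_iInter fun o => ?_
  exact isClosed_eq (continuous_const.mul continuous_id) (continuous_id.mul continuous_const)

theorem IsDiag.mem_BB {T : HH →L[ℂ] HH} {f : Γ → ℂ} (hT : IsDiag T f) : T ∈ BB := by
  rw [NormingEnvelope.mem_BB]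
  intro o
  have h1 := (isDiag_Q o).mul hT
  have h2 := hT.mul (isDiag_Q o)
  refine h1.eq ?_
  convert h2 using 2 with γ
  ring

/-- a vector in the fibre over `o` -/
noncomputable def emb (o : Option ℕ) (w : Fin 2 → ℂ) : HH := w 0 • e (o, 0) + w 1 • e (o, 1)

theorem emb_apply (o o' : Option ℕ) (w : Fin 2 → ℂ) (b : Fin 2) :
    (emb o w) (o', b) = if o' = o then w b else 0 := by
  have h : (emb o w) (o', b) = w 0 * (e (o, 0)) (o', b) + w 1 * (e (o, 1)) (o', b) := rfl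
  rw [h]
  by_cases ho : o' = o
  · subst ho
    rw [if_pos rfl]
    fin_cases b
    · have h1 : (e (o', (0 : Fin 2))) (o', (0 : Fin 2)) = 1 := e_self _
      have h2 : (e (o', (1 : Fin 2))) (o', (0 : Fin 2)) = 0 := e_ne (by simp)
      simp only [Fin.zero_eta]
      rw [h1, h2]; ring
    · have h1 : (e (o', (1 : Fin 2))) (o', (1 : Fin 2)) = 1 := e_self _
      have h2 : (e (o', (0 : Fin 2))) (o', (1 : Fin 2)) = 0 := e_ne (by simp)
      simp only [Fin.mk_one]
      rw [h1, h2]; ring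
  · rw [if_neg ho]
    have h1 : (e (o, (0 : Fin 2))) (o', b) = 0 := e_ne (by simp [ho])
    have h2 : (e (o, (1 : Fin 2))) (o', b) = 0 := e_ne (by simp [ho])
    rw [h1, h2]; ring

theorem Q_apply_eq_emb (o : Option ℕ) (ξ : HH) : Q o ξ = emb o (fun b => ξ (o, b)) := by
  ext γ
  obtain ⟨o', b⟩ := γ
  rw [isDiag_Q o, emb_apply]
  by_cases h : o' = o
  · subst h; simp
  · simp [h]

theorem BB_apply {T : HH →L[ℂ] HH} (hT : T ∈ BB) (ξ : HH) (o : Option ℕ) (a : Fin 2) :
    (T ξ) (o, a) = (T (emb o (fun b => ξ (o, b)))) (o, a) := by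
  rw [← Q_apply_eq_emb]
  have h : Q o (T ξ) = T (Q o ξ) := by
    have := congrArg (fun S : HH →L[ℂ] HH => S ξ) (mem_BB.1 hT o)
    simpa using this
  rw [← h, isDiag_Q o]
  simp

theorem BB_emb {T : HH →L[ℂ] HH} (hT : T ∈ BB) (o : Option ℕ) (w : Fin 2 → ℂ) :
    T (emb o w) = emb o (fun a => (T (emb o w)) (o, a)) := by
  rw [← Q_apply_eq_emb]
  have h : Q o (T (emb o w)) = T (Q o (emb o w)) := by
    have := congrArg (fun S : HH →L[ℂ] HH => S (emb o w)) (mem_BB.1 hT o)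
    simpa using this
  rw [h]
  congr 1
  ext γ
  obtain ⟨o', b⟩ := γ
  rw [isDiag_Q o, emb_apply]
  by_cases h : o' = o
  · subst h; simp
  · simp [h]

theorem hasSum_norm_sq (ξ : HH) :
    HasSum (fun o : Option ℕ => ∑ a : Fin 2, ‖ξ (o, a)‖ ^ 2) (‖ξ‖ ^ 2) := by
  have h := lp.hasSum_norm (p := 2) (by norm_num) ξ
  have h' : HasSum (fun γ : Γ => ‖ξ γ‖ ^ 2) (‖ξ‖ ^ 2) := by
    simpa using h
  exact h'.prod_fiberwise (fun o => hasSum_fintype _)

theorem hasSum_norm_sq_pi {n : ℕ} (ξ : PiLp 2 (fun _ : Fin n => HH)) :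
    HasSum (fun o : Option ℕ => ∑ j, ∑ a : Fin 2, ‖(ξ j) (o, a)‖ ^ 2) (‖ξ‖ ^ 2) := by
  rw [PiLp.norm_sq_eq_of_L2]
  exact hasSum_sum (fun j _ => hasSum_norm_sq (ξ j))

theorem matOp_le {m n : ℕ} (X : Matrix (Fin m) (Fin n) (HH →L[ℂ] HH)) (hX : ∀ i j, X i j ∈ BB)
    (c : ℝ) (hc : 0 ≤ c)
    (h : ∀ (o : Option ℕ) (v : Fin n → Fin 2 → ℂ),
      ∑ i, ∑ a : Fin 2, ‖∑ j, (X i j (emb o (v j))) (o, a)‖ ^ 2 ≤
        c ^ 2 * ∑ j, ∑ a : Fin 2, ‖v j a‖ ^ 2) :
    ‖matOp X‖ ≤ c := by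
  refine ContinuousLinearMap.opNorm_le_bound _ hc fun ξ => ?_
  refine le_of_sq_le_sq ?_ (by positivity)
  rw [mul_pow]
  refine hasSum_le ?_ (hasSum_norm_sq_pi (matOp X ξ)) ((hasSum_norm_sq_pi ξ).mul_left (c ^ 2))
  intro o
  have h1 := h o (fun j b => (ξ j) (o, b))
  refine le_trans (le_of_eq ?_) h1
  refine Finset.sum_congr rfl fun i _ => Finset.sum_congr rfl fun a _ => ?_
  rw [matOp_apply]
  congr 2
  have h2 : ((∑ j, (X i j) (ξ j) : HH)) (o, a) = ∑ j, ((X i j) (ξ j)) (o, a) := by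
    exact map_sum (lp.evalCLM ℂ (fun _ : Γ => ℂ) 2 (o, a)) _ _
  rw [h2]
  refine Finset.sum_congr rfl fun j _ => ?_
  exact BB_apply (hX i j) (ξ j) o a

theorem norm_emb_sq (o : Option ℕ) (w : Fin 2 → ℂ) : ‖emb o w‖ ^ 2 = ∑ a, ‖w a‖ ^ 2 := by
  have h := hasSum_norm_sq (emb o w)
  refine h.unique ?_
  convert hasSum_single (α := ℝ) o ?_ using 1
  · simp [emb_apply]
  · intro o' ho'
    simp [emb_apply, ho']

/-- the filters used for the injective envelope -/
noncomputable def FI (a : Fin 2) : Filter (ℕ × Fin 2) :=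
  Filter.map (fun n => (n, a)) (hyperfilter ℕ : Filter ℕ)

instance (a : Fin 2) : (FI a).NeBot := by
  unfold FI; infer_instance

theorem FI_le (a : Fin 2) : FI a ≤ cofinite := by
  unfold FI
  have h : Function.Injective (fun n : ℕ => (n, a)) := by
    intro m n h
    simpa using h
  exact (h.tendsto_cofinite).mono_left (hyperfilter_le_cofinite)

/-- the algebra `A ≅ c` -/
noncomputable def AA : StarSubalgebra ℂ (HH →L[ℂ] HH) := limAlg (fun _ => cofinite)

/-- the injective envelope `I ≅ ℓ^∞` -/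
noncomputable def II : StarSubalgebra ℂ (HH →L[ℂ] HH) := limAlg FI

theorem AA_le_II : AA ≤ II := by
  rintro T ⟨f, hf, hf'⟩
  exact ⟨f, hf, fun a => (hf' a).mono_left (FI_le a)⟩

theorem II_le_BB : II ≤ BB := by
  rintro T ⟨f, hf, -⟩
  exact hf.mem_BB

/-- constant diagonal operators -/
noncomputable def Dg (r : Fin 2 → ℂ) : HH →L[ℂ] HH :=
  diag (fun γ => r γ.2) (‖r 0‖ + ‖r 1‖) (by positivity) (by
    rintro ⟨o, b⟩
    fin_cases b
    · simp
    · simp)

theorem isDiag_Dg (r : Fin 2 → ℂ) : IsDiag (Dg r) (fun γ => r γ.2) := isDiag_diag _ _ _ _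

theorem Dg_mem (r : Fin 2 → ℂ) : Dg r ∈ II :=
  ⟨_, isDiag_Dg r, fun a => by
    unfold FI
    rw [Filter.tendsto_map'_iff]
    exact tendsto_const_nhds⟩

theorem Dg_emb (r : Fin 2 → ℂ) (o : Option ℕ) (w : Fin 2 → ℂ) :
    Dg r (emb o w) = emb o (fun a => r a * w a) := by
  ext γ
  obtain ⟨o', b⟩ := γ
  rw [isDiag_Dg, emb_apply, emb_apply]
  by_cases h : o' = o
  · subst h; simp
  · simp [h]

theorem emb_sum {n : ℕ} (o : Option ℕ) (w : Fin n → Fin 2 → ℂ) :
    ∑ j, emb o (w j) = emb o (fun a => ∑ j, w j a) := by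
  simp only [emb, Finset.sum_add_distrib, Finset.sum_smul]

theorem norms_II_BB : Norms (II : Set (HH →L[ℂ] HH)) (BB : Set (HH →L[ℂ] HH)) := by
  intro k hk X hX
  constructor
  · rintro r ⟨R, C, -, -, hR, hC, rfl⟩
    change ‖matOp R‖ ≤ 1 at hR
    change ‖matOp C‖ ≤ 1 at hC
    change ‖matOp (R * X * C)‖ ≤ ‖matOp X‖
    rw [matOp_mul, matOp_mul]
    refine le_trans (ContinuousLinearMap.opNorm_comp_le _ _) ?_
    have h1 := ContinuousLinearMap.opNorm_comp_le (matOp R) (matOp X)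
    have h2 : ‖(matOp R).comp (matOp X)‖ ≤ ‖matOp X‖ := by
      refine le_trans h1 ?_
      exact mul_le_of_le_one_left (ContinuousLinearMap.opNorm_nonneg _) hR
    refine le_trans (mul_le_mul h2 hC (ContinuousLinearMap.opNorm_nonneg _)
      (ContinuousLinearMap.opNorm_nonneg _)) ?_
    rw [mul_one]
  · intro c hc
    have hc0 : 0 ≤ c := by
      refine hc ⟨0, 0, ?_, ?_, ?_, ?_, ?_⟩
      · intro i j; exact II.zero_mem
      · intro i j; exact II.zero_mem
      · have : matOp (0 : Matrix (Fin 1) (Fin k) (HH →L[ℂ] HH)) = 0 := by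
          ext ξ i; simp [matOp_apply]
        rw [mnorm, this, ContinuousLinearMap.opNorm_zero]; exact zero_le_one
      · have : matOp (0 : Matrix (Fin k) (Fin 1) (HH →L[ℂ] HH)) = 0 := by
          ext ξ i; simp [matOp_apply]
        rw [mnorm, this, ContinuousLinearMap.opNorm_zero]; exact zero_le_one
      · have : matOp ((0 : Matrix (Fin 1) (Fin k) (HH →L[ℂ] HH)) * X *
            (0 : Matrix (Fin k) (Fin 1) (HH →L[ℂ] HH))) = 0 := by
          ext ξ i; simp [matOp_apply]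
        rw [mnorm, rxc, this, ContinuousLinearMap.opNorm_zero]
    refine matOp_le X hX c hc0 fun o v => ?_
    set w : Fin k → Fin 2 → ℂ := fun i a => ∑ j, (X i j (emb o (v j))) (o, a) with hw
    set η : Fin 2 → ℝ := fun a => √(∑ j, ‖v j a‖ ^ 2) with hη
    set ζ : Fin 2 → ℝ := fun a => √(∑ i, ‖w i a‖ ^ 2) with hζ
    have hη2 : ∀ a, η a ^ 2 = ∑ j, ‖v j a‖ ^ 2 := fun a =>
      Real.sq_sqrt (Finset.sum_nonneg fun j _ => by positivity)
    have hζ2 : ∀ a, ζ a ^ 2 = ∑ i, ‖w i a‖ ^ 2 := fun a =>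
      Real.sq_sqrt (Finset.sum_nonneg fun j _ => by positivity)
    have hη0 : ∀ a, 0 ≤ η a := fun a => Real.sqrt_nonneg _
    have hζ0 : ∀ a, 0 ≤ ζ a := fun a => Real.sqrt_nonneg _
    let C : Matrix (Fin k) (Fin 1) (HH →L[ℂ] HH) := fun j _ => Dg (fun a => v j a / (η a : ℂ))
    let R : Matrix (Fin 1) (Fin k) (HH →L[ℂ] HH) :=
      fun _ i => Dg (fun a => conj (w i a) / (ζ a : ℂ))
    have hunit : ∀ (u : Fin k → Fin 2 → ℂ) (θ : Fin 2 → ℝ),
        (∀ a, θ a ^ 2 = ∑ j, ‖u j a‖ ^ 2) → ∀ a, ∑ j, ‖u j a / (θ a : ℂ)‖ ^ 2 ≤ 1 := by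
      intro u θ hθ a
      simp only [norm_div, div_pow, Complex.norm_real, Real.norm_eq_abs, sq_abs]
      rw [← Finset.sum_div, ← hθ]
      exact div_self_le_one _
    have hC : ‖matOp C‖ ≤ 1 := by
      refine matOp_le C (fun i j => (isDiag_Dg _).mem_BB) 1 zero_le_one fun o' v' => ?_
      simp only [C, Dg_emb, emb_apply, Finset.univ_unique, Finset.sum_singleton, if_true, norm_mul,
        mul_pow, one_pow, one_mul]
      rw [Finset.sum_comm]
      refine Finset.sum_le_sum fun a _ => ?_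
      rw [← Finset.sum_mul]
      exact mul_le_of_le_one_left (by positivity) (hunit v η hη2 a)
    have hR : ‖matOp R‖ ≤ 1 := by
      refine matOp_le R (fun i j => (isDiag_Dg _).mem_BB) 1 zero_le_one fun o' v' => ?_
      simp only [R, Dg_emb, emb_apply, Finset.univ_unique, Finset.sum_singleton, if_true, one_pow,
        one_mul]
      rw [Finset.sum_comm (s := (Finset.univ : Finset (Fin k)))]
      refine Finset.sum_le_sum fun a _ => ?_
      have h1 : ‖∑ j, conj (w j a) / (ζ a : ℂ) * v' j a‖ ≤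
          ∑ j, ‖w j a / (ζ a : ℂ)‖ * ‖v' j a‖ := by
        refine le_trans (norm_sum_le _ _) (le_of_eq ?_)
        refine Finset.sum_congr rfl fun j _ => ?_
        rw [norm_mul, norm_div, norm_div, RCLike.norm_conj]
      have h2 := Finset.sum_mul_sq_le_sq_mul_sq Finset.univ
        (fun j => ‖w j a / (ζ a : ℂ)‖) (fun j => ‖v' j a‖)
      calc ‖∑ j, conj (w j a) / (ζ a : ℂ) * v' j a‖ ^ 2
          ≤ (∑ j, ‖w j a / (ζ a : ℂ)‖ * ‖v' j a‖) ^ 2 := by
            exact pow_le_pow_left₀ (norm_nonneg _) h1 2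
        _ ≤ (∑ j, ‖w j a / (ζ a : ℂ)‖ ^ 2) * ∑ j, ‖v' j a‖ ^ 2 := h2
        _ ≤ ∑ j, ‖v' j a‖ ^ 2 :=
            mul_le_of_le_one_left (Finset.sum_nonneg fun j _ => by positivity)
              (hunit w ζ hζ2 a)
    have hle : ‖matOp (R * X * C)‖ ≤ c :=
      hc ⟨R, C, fun i j => Dg_mem _, fun i j => Dg_mem _, hR, hC, rfl⟩
    -- evaluate at `emb o η`
    have hzero : ∀ (u : Fin k → Fin 2 → ℂ) (θ : Fin 2 → ℝ),
        (∀ a, θ a ^ 2 = ∑ j, ‖u j a‖ ^ 2) → ∀ a, θ a = 0 → ∀ j, u j a = 0 := by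
      intro u θ hθ a h0 j
      have h1 := hθ a
      rw [h0, zero_pow two_ne_zero] at h1
      have h2 := (Finset.sum_eq_zero_iff_of_nonneg (fun j _ => by positivity)).1 h1.symm j
        (Finset.mem_univ j)
      simpa using h2
    have hCη : ∀ j, C j 0 (emb o (fun a => (η a : ℂ))) = emb o (v j) := by
      intro j
      simp only [C, Dg_emb]
      congr 1
      ext a
      by_cases h0 : η a = 0
      · rw [h0, hzero v η hη2 a h0 j]; simp
      · have : (η a : ℂ) ≠ 0 := by exact_mod_cast h0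
        field_simp
    have hXw : ∀ i, ∑ j, X i j (emb o (v j)) = emb o (w i) := by
      intro i
      rw [hw]
      simp only
      rw [← emb_sum]
      exact Finset.sum_congr rfl fun j _ => BB_emb (hX i j) o (v j)
    have hRw : ∑ i, R 0 i (emb o (w i)) = emb o (fun a => (ζ a : ℂ)) := by
      simp only [R, Dg_emb]
      rw [emb_sum]
      congr 1
      ext a
      have h1 : ∑ j, conj (w j a) / (ζ a : ℂ) * w j a = ((ζ a ^ 2 : ℝ) : ℂ) / (ζ a : ℂ) := by
        rw [hζ2, Complex.ofReal_sum, Finset.sum_div]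
        refine Finset.sum_congr rfl fun j _ => ?_
        have h2 : conj (w j a) * w j a = ((‖w j a‖ ^ 2 : ℝ) : ℂ) := by
          rw [mul_comm, Complex.mul_conj, Complex.normSq_eq_norm_sq]
        rw [← h2]; ring
      rw [h1]
      by_cases h0 : ζ a = 0
      · rw [h0]; simp
      · have : (ζ a : ℂ) ≠ 0 := by exact_mod_cast h0
        push_cast
        field_simp
    have heval : (matOp (R * X * C) (PiLp.single 2 (0 : Fin 1) (emb o (fun a => (η a : ℂ))))) 0
        = emb o (fun a => (ζ a : ℂ)) := by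
      rw [matOp_mul, matOp_mul]
      simp only [ContinuousLinearMap.comp_apply, matOp_apply, Finset.univ_unique,
        Finset.sum_singleton, Fin.default_eq_zero, PiLp.single_eq_same]
      rw [← hRw]
      refine Finset.sum_congr rfl fun i _ => ?_
      congr 1
      rw [← hXw]
      refine Finset.sum_congr rfl fun j _ => ?_
      rw [hCη]
    have hfin : ‖emb o (fun a => (ζ a : ℂ))‖ ≤ c * ‖emb o (fun a => (η a : ℂ))‖ := by
      rw [← heval]
      refine le_trans (PiLp.norm_apply_le _ 0) ?_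
      refine le_trans ((matOp (R * X * C)).le_opNorm _) ?_
      rw [PiLp.norm_single]
      exact mul_le_mul_of_nonneg_right hle (norm_nonneg _)
    have hfin2 : ‖emb o (fun a => (ζ a : ℂ))‖ ^ 2 ≤
        (c * ‖emb o (fun a => (η a : ℂ))‖) ^ 2 := pow_le_pow_left₀ (norm_nonneg _) hfin 2
    rw [mul_pow, norm_emb_sq, norm_emb_sq] at hfin2
    simp only [Complex.norm_real, Real.norm_eq_abs, sq_abs, hη2, hζ2] at hfin2
    rw [Finset.sum_comm (s := (Finset.univ : Finset (Fin k)))]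
    rw [Finset.sum_comm (s := (Finset.univ : Finset (Fin k)))]
    exact hfin2

/-- matrix units in the fibre at infinity -/
noncomputable def mu (i j : Fin 2) : HH →L[ℂ] HH :=
  (lp.evalCLM ℂ (fun _ : Γ => ℂ) 2 (none, j)).smulRight (e (none, i))

/-- the matrix of matrix units -/
noncomputable def MU : Matrix (Fin 2) (Fin 2) (HH →L[ℂ] HH) := Matrix.of (fun i j => mu i j)

theorem MU_apply (i j : Fin 2) : MU i j = mu i j := rfl

theorem mu_apply (i j : Fin 2) (ξ : HH) : mu i j ξ = ξ (none, j) • e (none, i) := rfl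

theorem Q_e (o : Option ℕ) (γ : Γ) : Q o (e γ) = (if γ.1 = o then (1 : ℂ) else 0) • e γ := by
  ext δ
  have h : ((if γ.1 = o then (1 : ℂ) else 0) • e γ : HH) δ
    = (if γ.1 = o then (1 : ℂ) else 0) * (e γ) δ := rfl
  rw [isDiag_Q o, h]
  by_cases hδ : δ = γ
  · rw [hδ]
  · rw [e_ne hδ]; simp

theorem mu_mem (i j : Fin 2) : mu i j ∈ BB := by
  rw [mem_BB]
  intro o
  ext1 ξ
  rw [ContinuousLinearMap.mul_apply, ContinuousLinearMap.mul_apply, mu_apply, mu_apply, map_smul,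
    Q_e, isDiag_Q o, smul_smul, mul_comm]

theorem norm_sq_fin_one (ξ : PiLp 2 (fun _ : Fin 1 => HH)) : ‖ξ‖ ^ 2 = ‖ξ 0‖ ^ 2 := by
  rw [PiLp.norm_sq_eq_of_L2]; simp

theorem exists_scalar_of_mem_AA {T : HH →L[ℂ] HH} (hT : T ∈ AA) :
    ∃ r : ℂ, ∀ (ξ : HH) (a : Fin 2), (T ξ) (none, a) = r * ξ (none, a) := by
  obtain ⟨f, hf, hf'⟩ := hT
  refine ⟨f (none, 0), fun ξ a => ?_⟩
  rw [hf, tendsto_nhds_unique (hf' a) (hf' 0)]

theorem not_norms_AA_BB : ¬ Norms (AA : Set (HH →L[ℂ] HH)) (BB : Set (HH →L[ℂ] HH)) := by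
  intro hN
  have hlub := hN 2 (by norm_num) MU (fun i j => mu_mem i j)
  have h1 : ‖matOp MU‖ ≤ 1 := by
    refine hlub.2 ?_
    rintro _ ⟨R, C, hR, hC, hR1, hC1, rfl⟩
    choose r hr using fun i => exists_scalar_of_mem_AA (hR 0 i)
    choose c hc using fun j => exists_scalar_of_mem_AA (hC j 0)
    have hdiag : ∀ {T : HH →L[ℂ] HH} {z : ℂ}, T ∈ AA →
        (∀ (ξ : HH) (a : Fin 2), (T ξ) (none, a) = z * ξ (none, a)) →
        ∀ a, T (e (none, a)) = z • e (none, a) := by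
      rintro T z ⟨f, hf, -⟩ hz a
      ext δ
      have h : (z • e (none, a) : HH) δ = z * (e (none, a)) δ := rfl
      rw [h, hf]
      by_cases hδ : δ = (none, a)
      · rw [hδ, ← hf, hz]
      · rw [e_ne hδ]; simp
    -- column bound
    have hcle : ∑ j, ‖c j‖ ^ 2 ≤ 1 := by
      have h2 := (matOp C).le_opNorm (PiLp.single 2 (0 : Fin 1) (e (none, 0)))
      rw [PiLp.norm_single, norm_e, mul_one] at h2
      have h3 : ‖matOp C (PiLp.single 2 (0 : Fin 1) (e (none, 0)))‖ ^ 2 = ∑ j, ‖c j‖ ^ 2 := by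
        rw [PiLp.norm_sq_eq_of_L2]
        refine Finset.sum_congr rfl fun j _ => ?_
        rw [matOp_apply]
        simp only [Finset.univ_unique, Finset.sum_singleton, Fin.default_eq_zero,
          PiLp.single_eq_same]
        rw [hdiag (hC j 0) (hc j) 0, norm_smul, norm_e, mul_one]
      rw [← h3]
      exact pow_le_one₀ (norm_nonneg _) (h2.trans hC1)
    -- row bound
    have hrle : ∑ j, ‖r j‖ ^ 2 ≤ 1 := by
      set s : ℝ := ∑ j, ‖r j‖ ^ 2 with hs
      have hs0 : 0 ≤ s := Finset.sum_nonneg fun j _ => by positivity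
      have h2 := (matOp R).le_opNorm (WithLp.toLp 2 (fun i => conj (r i) • e (none, 0)))
      have h3 : ‖(WithLp.toLp 2 (fun i => conj (r i) • e (none, 0)) :
          PiLp 2 (fun _ : Fin 2 => HH))‖ ^ 2 = s := by
        rw [PiLp.norm_sq_eq_of_L2]
        refine Finset.sum_congr rfl fun j _ => ?_
        simp [norm_smul, norm_e]
      have h4 : ‖matOp R (WithLp.toLp 2 (fun i => conj (r i) • e (none, 0)))‖ ^ 2 = s ^ 2 := by
        rw [norm_sq_fin_one, matOp_apply]
        have h5 : ∑ j, (R 0 j) (conj (r j) • e (none, 0)) = (s : ℂ) • e (none, 0) := by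
          rw [hs, Complex.ofReal_sum, Finset.sum_smul]
          refine Finset.sum_congr rfl fun j _ => ?_
          rw [map_smul, hdiag (hR 0 j) (hr j) 0, smul_smul]
          congr 1
          rw [mul_comm, Complex.mul_conj, Complex.normSq_eq_norm_sq]
        have h6 : ‖∑ j, (R 0 j) (conj (r j) • e (none, 0))‖ = s := by
          rw [h5, norm_smul, norm_e, mul_one, Complex.norm_real, Real.norm_eq_abs,
            abs_of_nonneg hs0]
        exact congrArg (fun x : ℝ => x ^ 2) h6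
      have h7 : s ^ 2 ≤ 1 * s := by
        rw [← h4, ← h3]
        have h8 : ‖matOp R (WithLp.toLp 2 (fun i => conj (r i) • e (none, 0)))‖ ≤
            1 * ‖(WithLp.toLp 2 (fun i => conj (r i) • e (none, 0)) :
          PiLp 2 (fun _ : Fin 2 => HH))‖ :=
          h2.trans (mul_le_mul_of_nonneg_right hR1 (norm_nonneg _))
        have h9 := pow_le_pow_left₀ (norm_nonneg _) h8 2
        rwa [mul_pow, one_pow] at h9
      by_contra hgt
      push Not at hgt
      nlinarith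
    refine ContinuousLinearMap.opNorm_le_bound _ zero_le_one fun ξ => ?_
    rw [one_mul, rxc]
    refine le_of_sq_le_sq ?_ (norm_nonneg _)
    have heval : (matOp (R * MU * C) ξ) 0 =
        (∑ j, c j * (ξ 0) (none, j)) • emb none r := by
      rw [matOp_mul, matOp_mul]
      simp only [ContinuousLinearMap.comp_apply, matOp_apply, Finset.univ_unique,
        Finset.sum_singleton, Fin.default_eq_zero, MU_apply]
      have h5 : ∀ i : Fin 2, ∑ j, (mu i j) ((C j 0) (ξ 0)) =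
          (∑ j, c j * (ξ 0) (none, j)) • e (none, i) := by
        intro i
        rw [Finset.sum_smul]
        refine Finset.sum_congr rfl fun j _ => ?_
        rw [mu_apply, hc]
      simp only [h5, map_smul]
      rw [← Finset.smul_sum]
      congr 1
      rw [Fin.sum_univ_two, hdiag (hR 0 0) (hr 0) 0, hdiag (hR 0 1) (hr 1) 1]
      rfl
    rw [norm_sq_fin_one, norm_sq_fin_one, heval, norm_smul, mul_pow, norm_emb_sq]
    have h10 : ‖∑ j, c j * (ξ 0) (none, j)‖ ^ 2 ≤ ‖ξ 0‖ ^ 2 := by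
      have h11 : ‖∑ j, c j * (ξ 0) (none, j)‖ ≤ ∑ j, ‖c j‖ * ‖(ξ 0) (none, j)‖ := by
        refine le_trans (norm_sum_le _ _) (le_of_eq ?_)
        exact Finset.sum_congr rfl fun j _ => norm_mul _ _
      have h12 := Finset.sum_mul_sq_le_sq_mul_sq Finset.univ
        (fun j => ‖c j‖) (fun j => ‖(ξ 0) (none, j)‖)
      have h13 : ∑ j : Fin 2, ‖(ξ 0) (none, j)‖ ^ 2 ≤ ‖ξ 0‖ ^ 2 :=
        le_hasSum (hasSum_norm_sq (ξ 0)) none
          (fun o _ => Finset.sum_nonneg fun j _ => by positivity)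
      calc ‖∑ j, c j * (ξ 0) (none, j)‖ ^ 2
          ≤ (∑ j, ‖c j‖ * ‖(ξ 0) (none, j)‖) ^ 2 := pow_le_pow_left₀ (norm_nonneg _) h11 2
        _ ≤ (∑ j, ‖c j‖ ^ 2) * ∑ j, ‖(ξ 0) (none, j)‖ ^ 2 := h12
        _ ≤ 1 * ∑ j, ‖(ξ 0) (none, j)‖ ^ 2 :=
            mul_le_mul_of_nonneg_right hcle (Finset.sum_nonneg fun j _ => by positivity)
        _ ≤ ‖ξ 0‖ ^ 2 := by rw [one_mul]; exact h13
    calc ‖∑ j, c j * (ξ 0) (none, j)‖ ^ 2 * ∑ a, ‖r a‖ ^ 2
        ≤ ‖ξ 0‖ ^ 2 * 1 := mul_le_mul h10 hrle (Finset.sum_nonneg fun j _ => by positivity)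
          (by positivity)
      _ = ‖ξ 0‖ ^ 2 := mul_one _
  have h2 := (matOp MU).le_opNorm
    (WithLp.toLp 2 (fun i => e (none, i)))
  have h3 : ‖(WithLp.toLp 2 (fun i => e (none, i)) : PiLp 2 (fun _ : Fin 2 => HH))‖ ^ 2 = 2 := by
    rw [PiLp.norm_sq_eq_of_L2]
    simp [norm_e]
  have h4 : ‖matOp MU (WithLp.toLp 2 (fun i => e (none, i)))‖ ^ 2
      = 8 := by
    rw [PiLp.norm_sq_eq_of_L2]
    have h5 : ∀ i : Fin 2, (matOp MU
        (WithLp.toLp 2 (fun i => e (none, i)))) i = (2 : ℂ) • e (none, i) := by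
      intro i
      rw [matOp_apply, Fin.sum_univ_two]
      simp only [MU_apply, mu_apply, e_self]
      rw [← add_smul]; norm_num
    simp only [h5, norm_smul, norm_e]
    norm_num
  have h6 : ‖matOp MU (WithLp.toLp 2 (fun i => e (none, i)))‖ ≤
      1 * ‖(WithLp.toLp 2 (fun i => e (none, i)) : PiLp 2 (fun _ : Fin 2 => HH))‖ :=
    h2.trans (mul_le_mul_of_nonneg_right h1 (norm_nonneg _))
  have h7 := pow_le_pow_left₀ (norm_nonneg _) h6 2
  rw [mul_pow, one_pow, h3, h4] at h7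
  norm_num at h7

theorem norm_matOp_one_le {K : Type v} [NormedAddCommGroup K] [InnerProductSpace ℂ K]
    (T : K →L[ℂ] K) : ‖matOp (Matrix.of (fun _ _ : Fin 1 => T))‖ ≤ ‖T‖ := by
  refine ContinuousLinearMap.opNorm_le_bound _ (norm_nonneg _) fun ξ => ?_
  refine le_of_sq_le_sq ?_ (by positivity)
  rw [mul_pow, PiLp.norm_sq_eq_of_L2, PiLp.norm_sq_eq_of_L2]
  simp only [Finset.univ_unique, Finset.sum_singleton, matOp_apply, Matrix.of_apply]
  rw [← mul_pow]
  exact pow_le_pow_left₀ (norm_nonneg _) (T.le_opNorm _) 2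

theorem IsComplContr.norm_le {H : Type u} [NormedAddCommGroup H] [InnerProductSpace ℂ H]
    {K : Type v} [NormedAddCommGroup K] [InnerProductSpace ℂ K]
    {E : OpSpace K} {φ : Lin E H} (h : IsComplContr φ) (x : E) :
    ‖φ x‖ ≤ ‖(x : K →L[ℂ] K)‖ := by
  have h1 := h 1 (Matrix.of (fun _ _ => x))
  have h2 := norm_entry_le ((Matrix.of (fun _ _ : Fin 1 => x)).map (fun x => φ x)) 0 0
  exact (h2.trans h1).trans (norm_matOp_one_le (x : K →L[ℂ] K))

/-- the rank one diagonal projection -/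
noncomputable def EE (γ : Γ) : HH →L[ℂ] HH :=
  diag (fun δ => if δ = γ then 1 else 0) 1 zero_le_one (by intro δ; split_ifs <;> simp)

theorem isDiag_EE (γ : Γ) : IsDiag (EE γ) (fun δ => if δ = γ then 1 else 0) :=
  isDiag_diag _ _ _ _

theorem EE_mem (n : ℕ) (a : Fin 2) : EE (some n, a) ∈ AA := by
  refine ⟨_, isDiag_EE _, fun b => ?_⟩
  rw [if_neg (by simp)]
  refine tendsto_const_nhds.congr' ?_
  have h : {p : ℕ × Fin 2 | p ≠ (n, a)} ∈ (cofinite : Filter (ℕ × Fin 2)) := by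
    rw [mem_cofinite]
    convert Set.finite_singleton (n, a)
    ext p; simp
  filter_upwards [h] with p hp
  rw [if_neg]
  rintro heq
  apply hp
  simp only [Prod.mk.injEq, Option.some.injEq] at heq
  exact Prod.ext heq.1 heq.2

theorem IsDiag.smul {T : HH →L[ℂ] HH} {f : Γ → ℂ} (hT : IsDiag T f) (c : ℂ) :
    IsDiag (c • T) (fun γ => c * f γ) := by
  intro ξ γ
  have h : ((c • T) ξ) γ = c * (T ξ) γ := rfl
  rw [h, hT, mul_assoc]

theorem IsDiag.norm_le {T : HH →L[ℂ] HH} {f : Γ → ℂ} (hT : IsDiag T f) (M : ℝ) (hM : 0 ≤ M)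
    (h : ∀ γ, ‖f γ‖ ≤ M) : ‖T‖ ≤ M := by
  rw [hT.eq (isDiag_diag f M hM h)]
  exact norm_diag_le f M hM h

theorem IsDiag.isDiag_co {T : HH →L[ℂ] HH} {f : Γ → ℂ} (hT : IsDiag T f) : IsDiag T (co T) := by
  intro ξ γ
  rw [hT.co_eq, hT]

theorem mem_limAlg' {F : Fin 2 → Filter (ℕ × Fin 2)} {T : HH →L[ℂ] HH} (hT : T ∈ limAlg F) :
    IsDiag T (co T) ∧
      ∀ a, Tendsto (fun p : ℕ × Fin 2 => co T (some p.1, p.2)) (F a) (𝓝 (co T (none, a))) := by
  obtain ⟨f, hf, hf'⟩ := hT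
  refine ⟨hf.isDiag_co, fun a => ?_⟩
  simp only [hf.co_eq]
  exact hf' a

/-- The underlying linear subspace of a `*`-subalgebra of `B(H)`. -/
abbrev sub {H : Type u} [NormedAddCommGroup H] [InnerProductSpace ℂ H] [CompleteSpace H]
    (A : StarSubalgebra ℂ (H →L[ℂ] H)) : OpSpace H :=
  Subalgebra.toSubmodule A.toSubalgebra

theorem sub_isCStarAlg {H : Type u} [NormedAddCommGroup H] [InnerProductSpace ℂ H]
    [CompleteSpace H] (A : StarSubalgebra ℂ (H →L[ℂ] H)) (hA : IsClosed (A : Set (H →L[ℂ] H))) :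
    IsCStarAlg (sub A) :=
  ⟨hA, A.one_mem, fun x y => A.mul_mem x.2 y.2, fun x => A.star_mem' x.2⟩

theorem rigid_II (φ : Lin (sub II) HH) (hφ : ∀ x, φ x ∈ II)
    (hc : IsComplContr φ)
    (hA : ∀ (a : HH →L[ℂ] HH) (ha : a ∈ AA), φ ⟨a, AA_le_II ha⟩ = a) (x : sub II) :
    φ x = (x : HH →L[ℂ] HH) := by
  obtain ⟨hx1, hx2⟩ := mem_limAlg' (F := FI) x.2
  obtain ⟨hy1, hy2⟩ := mem_limAlg' (F := FI) (hφ x)
  have key : ∀ (n : ℕ) (a : Fin 2), co (φ x) (some n, a) = co (x : HH →L[ℂ] HH) (some n, a) := by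
    intro n a
    by_contra hne
    set z : ℂ := co (φ x) (some n, a) - co (x : HH →L[ℂ] HH) (some n, a) with hz
    have hz0 : z ≠ 0 := sub_ne_zero.2 hne
    set M : ℝ := ‖(x : HH →L[ℂ] HH)‖ + 1 with hM
    have hM0 : 0 < M := by positivity
    set l : ℂ := (M / ‖z‖ : ℝ) * z with hl
    have hlz : ‖l‖ = M := by
      rw [hl, norm_mul, Complex.norm_real, Real.norm_eq_abs, abs_of_nonneg (by positivity)]
      field_simp
    let E' : sub II := ⟨EE (some n, a), AA_le_II (EE_mem n a)⟩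
    let y : sub II := x + (l - co (x : HH →L[ℂ] HH) (some n, a)) • E'
    have hydiag : IsDiag (y : HH →L[ℂ] HH) (fun γ => co (x : HH →L[ℂ] HH) γ +
        (l - co (x : HH →L[ℂ] HH) (some n, a)) * (if γ = (some n, a) then 1 else 0)) :=
      hx1.add ((isDiag_EE _).smul _)
    have hynorm : ‖(y : HH →L[ℂ] HH)‖ ≤ M := by
      refine hydiag.norm_le M hM0.le fun γ => ?_
      by_cases hγ : γ = (some n, a)
      · rw [hγ]; simp [hlz]
      · rw [if_neg hγ, mul_zero, add_zero]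
        exact (norm_co_le _ _).trans (by rw [hM]; linarith)
    have hφy : φ y = φ x + (l - co (x : HH →L[ℂ] HH) (some n, a)) • EE (some n, a) := by
      have h1 : φ E' = EE (some n, a) := hA _ (EE_mem n a)
      rw [← h1]
      simp only [y, map_add, map_smul]
    have hcoy : co (φ y) (some n, a) = l + z := by
      rw [hφy, co_add, co_smul, (isDiag_EE _).co_eq, if_pos rfl, hz]
      ring
    have h2 : ‖l + z‖ ≤ M := by
      rw [← hcoy]
      exact (norm_co_le _ _).trans ((hc.norm_le y).trans hynorm)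
    have h3 : l + z = ((M / ‖z‖ + 1 : ℝ) : ℂ) * z := by
      rw [hl]; push_cast; ring
    have hzpos : 0 < ‖z‖ := norm_pos_iff.2 hz0
    rw [h3, norm_mul, Complex.norm_real, Real.norm_eq_abs, abs_of_nonneg (by positivity)] at h2
    have h4 : (M / ‖z‖ + 1) * ‖z‖ = M + ‖z‖ := by field_simp
    linarith
  have key2 : ∀ a : Fin 2, co (φ x) (none, a) = co (x : HH →L[ℂ] HH) (none, a) := by
    intro a
    refine tendsto_nhds_unique (hy2 a) ?_
    refine (hx2 a).congr fun p => ?_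
    exact (key p.1 p.2).symm
  have key3 : co (φ x) = co (x : HH →L[ℂ] HH) := by
    ext γ
    obtain ⟨o, a⟩ := γ
    cases o with
    | none => exact key2 a
    | some n => exact key n a
  rw [key3] at hy1
  exact hy1.eq hx1

theorem exists_lim (g : ℕ × Fin 2 → ℂ) (M : ℝ) (hg : ∀ p, ‖g p‖ ≤ M) (a : Fin 2) :
    ∃ z : ℂ, ‖z‖ ≤ M ∧ Tendsto g (FI a) (𝓝 z) := by
  have hcomp : IsCompact (Metric.closedBall (0 : ℂ) M) := isCompact_closedBall _ _
  have h := hcomp.ultrafilter_le_nhds' ((hyperfilter ℕ).map (fun n => g (n, a))) (by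
    rw [Ultrafilter.mem_map]
    have hu : (fun n => g (n, a)) ⁻¹' Metric.closedBall (0 : ℂ) M = Set.univ := by
      ext n
      simpa using hg (n, a)
    rw [hu]
    exact Filter.univ_mem)
  obtain ⟨z, hz, hz'⟩ := h
  refine ⟨z, by simpa using hz, ?_⟩
  unfold FI
  rw [Filter.tendsto_map'_iff]
  exact hz'

section Inj

variable {K : Type v} [NormedAddCommGroup K] [InnerProductSpace ℂ K]

theorem scalar_bound {k : ℕ} (Y : Matrix (Fin k) (Fin k) (K →L[ℂ] K))
    (g : (K →L[ℂ] K) →L[ℂ] ℂ) (hg : ‖g‖ ≤ 1) (v : Fin k → ℂ) :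
    ∑ i, ‖∑ j, g (Y i j) * v j‖ ^ 2 ≤ ‖matOp Y‖ ^ 2 * ∑ j, ‖v j‖ ^ 2 := by
  set w : Fin k → ℂ := fun i => ∑ j, g (Y i j) * v j with hw
  set W : ℝ := ∑ i, ‖w i‖ ^ 2 with hW
  set V : ℝ := ∑ j, ‖v j‖ ^ 2 with hV
  have hW0 : 0 ≤ W := Finset.sum_nonneg fun j _ => by positivity
  have hV0 : 0 ≤ V := Finset.sum_nonneg fun j _ => by positivity
  have hc0 : 0 ≤ ‖matOp Y‖ := ContinuousLinearMap.opNorm_nonneg _
  let Z : K →L[ℂ] K := ∑ i, conj (w i) • ∑ j, v j • Y i j
  have hgZ : g Z = (W : ℂ) := by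
    simp only [Z, map_sum, map_smul, smul_eq_mul]
    rw [hW, Complex.ofReal_sum]
    refine Finset.sum_congr rfl fun i _ => ?_
    have h1 : ∑ j, v j * g (Y i j) = w i := by
      rw [hw]; exact Finset.sum_congr rfl fun j _ => mul_comm _ _
    rw [h1, mul_comm, Complex.mul_conj, Complex.normSq_eq_norm_sq]
  have hZ : ‖Z‖ ≤ √W * (‖matOp Y‖ * √V) := by
    refine ContinuousLinearMap.opNorm_le_bound _ (by positivity) fun h => ?_
    set u : PiLp 2 (fun _ : Fin k => K) := matOp Y (WithLp.toLp 2 (fun j => v j • h)) with hu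
    have h1 : Z h = ∑ i, conj (w i) • u i := by
      simp only [Z, ContinuousLinearMap.sum_apply, ContinuousLinearMap.smul_apply]
      refine Finset.sum_congr rfl fun i _ => ?_
      rw [hu, matOp_apply]
      congr 1
      refine Finset.sum_congr rfl fun j _ => ?_
      simp
    have h2 : ‖Z h‖ ≤ ∑ i, ‖w i‖ * ‖u i‖ := by
      rw [h1]
      refine le_trans (norm_sum_le _ _) (le_of_eq ?_)
      refine Finset.sum_congr rfl fun i _ => ?_
      rw [norm_smul, RCLike.norm_conj]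
    have h3 : ∑ i, ‖w i‖ * ‖u i‖ ≤ √W * ‖u‖ := by
      have h4 := Finset.sum_mul_sq_le_sq_mul_sq Finset.univ (fun i => ‖w i‖) (fun i => ‖u i‖)
      refine le_of_sq_le_sq ?_ (by positivity)
      rw [mul_pow, Real.sq_sqrt hW0, PiLp.norm_sq_eq_of_L2]
      exact h4
    have h5 : ‖u‖ ≤ ‖matOp Y‖ * (√V * ‖h‖) := by
      rw [hu]
      refine le_trans ((matOp Y).le_opNorm _) (mul_le_mul_of_nonneg_left (le_of_eq ?_) hc0)
      have h6 : ‖(WithLp.toLp 2 (fun j => v j • h) : PiLp 2 (fun _ : Fin k => K))‖ ^ 2 =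
          (√V * ‖h‖) ^ 2 := by
        rw [PiLp.norm_sq_eq_of_L2, mul_pow, Real.sq_sqrt hV0, hV, Finset.sum_mul]
        refine Finset.sum_congr rfl fun j _ => ?_
        simp [norm_smul, mul_pow]
      exact (sq_eq_sq₀ (norm_nonneg _) (by positivity)).1 h6
    calc ‖Z h‖ ≤ √W * ‖u‖ := h2.trans h3
      _ ≤ √W * (‖matOp Y‖ * (√V * ‖h‖)) := mul_le_mul_of_nonneg_left h5 (Real.sqrt_nonneg _)
      _ = √W * (‖matOp Y‖ * √V) * ‖h‖ := by ring
  have h7 : W ≤ √W * (‖matOp Y‖ * √V) := by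
    have h8 : ‖g Z‖ ≤ 1 * ‖Z‖ := (g.le_opNorm Z).trans (mul_le_mul_of_nonneg_right hg
      (norm_nonneg _))
    rw [hgZ, Complex.norm_real, Real.norm_eq_abs, abs_of_nonneg hW0, one_mul] at h8
    exact h8.trans hZ
  have h9 : √W ≤ ‖matOp Y‖ * √V := by
    by_cases hz : √W = 0
    · rw [hz]; positivity
    · have hpos : 0 < √W := lt_of_le_of_ne (Real.sqrt_nonneg _) (Ne.symm hz)
      have h10 : √W * √W ≤ √W * (‖matOp Y‖ * √V) := by
        rw [Real.mul_self_sqrt hW0]; exact h7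
      exact le_of_mul_le_mul_left h10 hpos
  have h11 := pow_le_pow_left₀ (Real.sqrt_nonneg _) h9 2
  rwa [mul_pow, Real.sq_sqrt hW0, Real.sq_sqrt hV0] at h11

end Inj

/-- symbol of the extension -/
noncomputable def symb {K : Type v} [NormedAddCommGroup K] [InnerProductSpace ℂ K]
    (g : ℕ × Fin 2 → ((K →L[ℂ] K) →L[ℂ] ℂ)) (G : Fin 2 → (K →L[ℂ] K) → ℂ)
    (x : K →L[ℂ] K) : Γ → ℂ
  | (none, a) => G a x
  | (some n, a) => g (n, a) x

theorem injective_II : IsInjective.{0, w} (sub II) := by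
  intro K _ _ _ E F φ hEF hφ hc
  -- coordinate functionals
  have hext : ∀ p : ℕ × Fin 2, ∃ g : (K →L[ℂ] K) →L[ℂ] ℂ, ‖g‖ ≤ 1 ∧
      ∀ x : E, g (x : K →L[ℂ] K) = co (φ x) (some p.1, p.2) := by
    intro p
    let f0 : E →ₗ[ℂ] ℂ :=
      { toFun := fun x => co (φ x) (some p.1, p.2)
        map_add' := fun x y => by rw [map_add, co_add]
        map_smul' := fun c x => by rw [map_smul, co_smul]; rfl }
    let f : StrongDual ℂ E := f0.mkContinuous 1 (fun x => by
      rw [one_mul]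
      exact (norm_co_le _ _).trans (hc.norm_le x))
    obtain ⟨g, hg1, hg2⟩ := exists_extension_norm_eq E f
    refine ⟨g, ?_, fun x => hg1 x⟩
    rw [hg2]
    exact LinearMap.mkContinuous_norm_le _ zero_le_one _
  choose g hg1 hg2 using hext
  have hbd : ∀ p x, ‖g p x‖ ≤ ‖x‖ := by
    intro p x
    refine ((g p).le_opNorm x).trans ?_
    exact mul_le_of_le_one_left (norm_nonneg _) (hg1 p)
  have hlim : ∀ (a : Fin 2) (x : K →L[ℂ] K), ∃ z : ℂ, ‖z‖ ≤ ‖x‖ ∧
      Tendsto (fun p => g p x) (FI a) (𝓝 z) := fun a x =>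
    exists_lim (fun p => g p x) ‖x‖ (fun p => hbd p x) a
  choose G hG1 hG2 using hlim
  have hsb : ∀ x γ, ‖symb g G x γ‖ ≤ ‖x‖ := by
    rintro x ⟨o, a⟩
    cases o with
    | none => exact hG1 a x
    | some n => exact hbd (n, a) x
  have hadd : ∀ x y γ, symb g G (x + y) γ = symb g G x γ + symb g G y γ := by
    rintro x y ⟨o, a⟩
    cases o with
    | none =>
      refine tendsto_nhds_unique (hG2 a (x + y)) ?_
      have h := (hG2 a x).add (hG2 a y)
      refine h.congr fun p => ?_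
      rw [map_add]
    | some n => exact map_add (g (n, a)) x y
  have hsmul : ∀ (c : ℂ) x γ, symb g G (c • x) γ = c * symb g G x γ := by
    rintro c x ⟨o, a⟩
    cases o with
    | none =>
      refine tendsto_nhds_unique (hG2 a (c • x)) ?_
      have h := (hG2 a x).const_mul c
      refine h.congr fun p => ?_
      rw [map_smul, smul_eq_mul]
    | some n => exact map_smul (g (n, a)) c x
  let ψ0 : (K →L[ℂ] K) →ₗ[ℂ] (HH →L[ℂ] HH) :=
    { toFun := fun x => diag (symb g G x) ‖x‖ (norm_nonneg _) (hsb x)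
      map_add' := fun x y => by
        refine IsDiag.eq (isDiag_diag _ _ _ _) ?_
        have h := (isDiag_diag _ _ (norm_nonneg x) (hsb x)).add
          (isDiag_diag _ _ (norm_nonneg y) (hsb y))
        have h' : (fun γ => symb g G x γ + symb g G y γ) = symb g G (x + y) := by
          ext γ; exact (hadd x y γ).symm
        rwa [h'] at h
      map_smul' := fun c x => by
        refine IsDiag.eq (isDiag_diag _ _ _ _) ?_
        have h := (isDiag_diag _ _ (norm_nonneg x) (hsb x)).smul c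
        have h' : (fun γ => c * symb g G x γ) = symb g G (c • x) := by
          ext γ; exact (hsmul c x γ).symm
        rwa [h'] at h }
  have hψ0 : ∀ x, IsDiag (ψ0 x) (symb g G x) := fun x =>
    isDiag_diag (symb g G x) ‖x‖ (norm_nonneg x) (hsb x)
  refine ⟨ψ0.domRestrict F, ?_, ?_, ?_⟩
  · intro x
    exact ⟨symb g G x, hψ0 x, fun a => hG2 a x⟩
  · intro k X
    set Y : Matrix (Fin k) (Fin k) (K →L[ℂ] K) := X.map (fun x => (x : K →L[ℂ] K)) with hY
    refine matOp_le _ (fun i j => (hψ0 _).mem_BB) _ (ContinuousLinearMap.opNorm_nonneg _) ?_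
    intro o v
    rw [Finset.sum_comm (s := (Finset.univ : Finset (Fin k)))]
    rw [Finset.sum_comm (s := (Finset.univ : Finset (Fin k)))]
    rw [Finset.mul_sum]
    refine Finset.sum_le_sum fun a _ => ?_
    have hval : ∀ i j, ((X.map (fun x => (ψ0.domRestrict F) x)) i j (emb o (v j))) (o, a) =
        symb g G (Y i j) (o, a) * v j a := by
      intro i j
      have h1 : (X.map (fun x => (ψ0.domRestrict F) x)) i j = ψ0 (Y i j) := rfl
      rw [h1, hψ0, emb_apply, if_pos rfl]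
    have hmain : ∑ i, ‖∑ j, symb g G (Y i j) (o, a) * v j a‖ ^ 2 ≤
        ‖matOp Y‖ ^ 2 * ∑ j, ‖v j a‖ ^ 2 := by
      cases o with
      | some n => exact scalar_bound Y (g (n, a)) (hg1 _) (fun j => v j a)
      | none =>
        have h2 : Tendsto (fun p => ∑ i, ‖∑ j, g p (Y i j) * v j a‖ ^ 2) (FI a)
            (𝓝 (∑ i, ‖∑ j, symb g G (Y i j) (none, a) * v j a‖ ^ 2)) := by
          refine tendsto_finsetSum _ fun i _ => ?_
          refine Tendsto.pow (Tendsto.norm ?_) 2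
          refine tendsto_finsetSum _ fun j _ => ?_
          exact (hG2 a (Y i j)).mul_const _
        exact le_of_tendsto h2 (Eventually.of_forall fun p =>
          scalar_bound Y (g p) (hg1 p) (fun j => v j a))
    refine le_trans (le_of_eq ?_) hmain
    refine Finset.sum_congr rfl fun i _ => ?_
    congr 2
    exact Finset.sum_congr rfl fun j _ => hval i j
  · intro x
    intro y hyx
    change ψ0 (y : K →L[ℂ] K) = φ x
    rw [hyx]
    obtain ⟨hx1, hx2⟩ := mem_limAlg' (F := FI) (hφ x)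
    have h2 : symb g G (x : K →L[ℂ] K) = co (φ x) := by
      ext γ
      obtain ⟨o, a⟩ := γ
      cases o with
      | none =>
        refine tendsto_nhds_unique (hG2 a x) ?_
        refine (hx2 a).congr fun p => ?_
        exact (hg2 p x).symm
      | some n => exact hg2 (n, a) x
    have h3 := hψ0 (x : K →L[ℂ] K)
    rw [h2] at h3
    exact h3.eq hx1

/-- **Main theorem.**  There are (unital) C*-algebras `A ⊆ B ⊆ B(H)` and a completely isometric
copy `j(I(A))` of the injective envelope of `A` in `B(H)`, with `j(a) = a` for all `a ∈ A`, which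
norms `B`, whereas `A` does not norm `B`. -/
theorem result :
    ∃ (H : Type) (_ : NormedAddCommGroup H) (_ : InnerProductSpace ℂ H) (_ : CompleteSpace H)
      (A B : OpSpace H), IsCStarAlg A ∧ IsCStarAlg B ∧ A ≤ B ∧
      CopyNorms.{0, 0, w} A B ∧ ¬ Norms (A : Set (Op H)) (B : Set (Op H)) := by
  refine ⟨HH, inferInstance, inferInstance, inferInstance, sub AA, sub BB,
    sub_isCStarAlg _ (isClosed_limAlg _), sub_isCStarAlg _ isClosed_BB,
    AA_le_II.trans II_le_BB, ?_, not_norms_AA_BB⟩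
  refine ⟨HH, inferInstance, inferInstance, inferInstance, sub II,
    (sub AA).subtype, (sub II).subtype, ?_, fun k X => rfl, ?_, ?_⟩
  · refine ⟨sub_isCStarAlg _ (isClosed_limAlg _), ⟨fun x y z h => h, fun x y h => h⟩,
      Subtype.val_injective, fun x => AA_le_II x.2, injective_II, ?_⟩
    intro φ hφ hc hA x
    exact rigid_II φ hφ hc (fun a ha => hA ⟨a, ha⟩ ⟨a, AA_le_II ha⟩ rfl) x
  · intro a x h
    exact h.symm
  · have h : Set.range (ap (sub II).subtype) = (II : Set (HH →L[ℂ] HH)) := by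
      ext T
      constructor
      · rintro ⟨x, rfl⟩
        exact x.2
      · intro hT
        exact ⟨⟨T, hT⟩, rfl⟩
    rw [h]
    exact norms_II_BB

end Concrete

end Pool.Agent.Results.MP_dad682_an.NormingEnvelope
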